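import Pool.Agent.MP_13e7a1_an.H82.Tools

/-!
Energy absorption: the statement `SAbs`.
-/

open scoped ContDiff Topology Matrix
open Set Metric MeasureTheory Filter

noncomputable section

namespace Pool.Agent.MP_13e7a1_an.H50

open Pool.Agent.MP_13e7a1_an.H82

/-- The final real inequality. -/
theorem comb {c₀ a₀ a₁ C₁ C₂ C₃ C₄ C₅ Q C₈ t δ φ φ' U z η₁ η₂ A₁ A₂ A₃ A₄ A₅ A₆ C : ℝ}
    (hφ : 0 ≤ φ) (hφ' : 0 ≤ φ') (hU : 0 ≤ U) (h1 : 0 ≤ η₁) (h2 : 0 ≤ η₂)
    (k1 : 2 * c₀ * (φ * U) - 2 * C₁ * η₁ + c₀ ^ 2 * a₀ * φ ≤ A₁)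
    (k2 : c₀ * a₁ * (φ' * z ^ 2) - C₂ * ((η₁ + η₂) * z ^ 2) ≤ A₂)
    (k3 : A₃ ≤ C₃ * δ * (φ' * z ^ 2))
    (k4 : -(δ * C₄ * (φ * U)) - δ * C₅ * φ ≤ A₄)
    (k5 : A₅ ≤ Q * t / 2 * φ + Q * δ / (2 * t) * (φ' * z ^ 2))
    (k6 : A₆ ≤ C₈ * δ * φ)
    (e1 : δ * C₄ ≤ c₀) (e2 : C₃ * δ + Q * δ / t ≤ c₀ * a₁)
    (e3 : 2 * δ * C₅ + Q * t + 2 * C₈ * δ ≤ c₀ ^ 2 * a₀ / 2) (e4 : 2 * C₁ ≤ C) (e5 : C₂ ≤ C) :
    c₀ ^ 2 * a₀ / 2 * φ ≤ A₁ + A₂ - A₃ + 2 * A₄ - 2 * A₅ - 2 * A₆ + C * η₁ +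
      C * ((η₁ + η₂) * z ^ 2) := by
  have p1 := mul_le_mul_of_nonneg_right e1 (mul_nonneg hφ hU)
  have p2 := mul_le_mul_of_nonneg_right e2 (mul_nonneg hφ' (sq_nonneg z))
  have p3 := mul_le_mul_of_nonneg_right e3 hφ
  have p4 := mul_le_mul_of_nonneg_right e4 h1
  have p5 := mul_le_mul_of_nonneg_right e5 (mul_nonneg (add_nonneg h1 h2) (sq_nonneg z))
  have q : Q * δ / (2 * t) * (φ' * z ^ 2) = Q * δ / t * (φ' * z ^ 2) / 2 := by ring
  nlinarith

/-- Choice of the two small parameters. -/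
theorem choose_small {c₀ a₀ a₁ C₃ C₄ C₅ Q C₈ : ℝ} (hc : 0 < c₀) (ha₀ : 0 < a₀) (ha₁ : 0 < a₁)
    (h3 : 0 ≤ C₃) (h4 : 0 ≤ C₄) (h5 : 0 ≤ C₅) (hQ : 0 ≤ Q) (h8 : 0 ≤ C₈) :
    ∃ t δ : ℝ, 0 < t ∧ 0 < δ ∧ δ ≤ 1 ∧ δ * C₄ ≤ c₀ ∧ C₃ * δ + Q * δ / t ≤ c₀ * a₁ ∧
      2 * δ * C₅ + Q * t + 2 * C₈ * δ ≤ c₀ ^ 2 * a₀ / 2 := by
  have key : ∀ {x y : ℝ}, 0 ≤ x → 0 < y → ∃ s : ℝ, 0 < s ∧ ∀ d : ℝ, 0 ≤ d → d ≤ s → d * x ≤ y :=
    fun {x y} hx hy => ⟨y / (x + 1), by positivity, fun d hd hs => by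
      have := (le_div_iff₀ (by positivity : 0 < x + 1)).1 hs
      nlinarith⟩
  obtain ⟨t, ht, ht'⟩ := key hQ (show 0 < c₀ ^ 2 * a₀ / 4 by positivity)
  obtain ⟨s₁, hs₁, k₁⟩ := key h4 hc
  obtain ⟨s₂, hs₂, k₂⟩ := key (show 0 ≤ C₃ + Q / t by positivity) (mul_pos hc ha₁)
  obtain ⟨s₃, hs₃, k₃⟩ := key (show 0 ≤ 2 * C₅ + 2 * C₈ by positivity)
    (show 0 < c₀ ^ 2 * a₀ / 4 by positivity)
  have hd : 0 < min 1 (min s₁ (min s₂ s₃)) := by positivity
  refine ⟨t, min 1 (min s₁ (min s₂ s₃)), ht, hd, min_le_left _ _,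
    k₁ _ hd.le ((min_le_right _ _).trans (min_le_left _ _)), ?_, ?_⟩
  · have := k₂ _ hd.le ((min_le_right _ _).trans ((min_le_right _ _).trans (min_le_left _ _)))
    refine le_trans (le_of_eq ?_) this
    ring
  · have := k₃ _ hd.le ((min_le_right _ _).trans ((min_le_right _ _).trans (min_le_right _ _)))
    have := ht' t ht.le le_rfl
    nlinarith

theorem continuous_dot {X Y : E → V} (hX : Continuous X) (hY : Continuous Y) :
    Continuous fun x => X x ⬝ᵥ Y x := hX.dotProduct hY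

/-- The integral identity behind the estimate. -/
theorem ident (hI : SIntA) (c : Ctx) {D : Set E} (hD : IsCompact D) {τ : E → Mat} {X : E → V}
    {Y : E → ℝ} (hτ : Continuous τ) (hX : Continuous X) (hY : Continuous Y)
    (ht : ∀ H a : E → ℝ, ContDiff ℝ ∞ H → ContDiff ℝ ∞ a → (∀ x, x ∉ D → H x = 0) →
      ∫ x in D, c.n x (grad H x) (grad a x) =
        (∫ x in D, H x * pf (c.T a x) (τ x)) + ∫ x in D, H x * (X x ⬝ᵥ grad a x))
    (hd : ∀ h a : E → ℝ, ContDiff ℝ ∞ h → ContDiff ℝ ∞ a → (∀ x, x ∉ D → h x = 0) →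
      ∫ x in D, h x * (X x ⬝ᵥ grad a x) =
        -(∫ x in D, a x * (X x ⬝ᵥ grad h x)) - ∫ x in D, a x * h x * Y x)
    {u a b : E → ℝ} (hu : ContDiff ℝ ∞ u) (ha : ContDiff ℝ ∞ a) (hb : ContDiff ℝ ∞ b)
    (h0 : ∀ x, x ∉ D → a x - b x ≤ 0) :
    c.N D (fun x => chi (a x - b x)) b b - c.N D (fun x => chi (a x - b x)) u u =
      ∫ x in D, (chi (a x - b x) * c.w (c.T a x) (c.T a x)
          - chi (a x - b x) * c.w (c.T u x) (c.T u x)
        + deriv chi (a x - b x) *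
          c.w (c.s x (grad a x - grad b x) (grad a x - grad b x)) (c.T a x + c.T b x)
        - chi (a x - b x) * c.n x (grad a x - grad b x) (grad a x - grad b x)
        + 2 * (chi2 (a x - b x) * pf (c.T a x) (τ x))
        - 2 * (a x * (chi (a x - b x) * (X x ⬝ᵥ (grad a x - grad b x))))
        - 2 * (a x * chi2 (a x - b x) * Y x)) := by
  have hg : ContDiff ℝ ∞ fun x => a x - b x := ha.sub hb
  have hH : ContDiff ℝ ∞ fun x => chi2 (a x - b x) := contDiff_chi2.comp hg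
  have hφ : Continuous fun x => chi (a x - b x) := continuous_chi.comp hg.continuous
  have hφ' : Continuous fun x => deriv chi (a x - b x) :=
    (contDiff_chi.continuous_deriv (by simp)).comp hg.continuous
  have gH : ∀ x, grad (fun x => chi2 (a x - b x)) x = chi (a x - b x) • (grad a x - grad b x) :=
    fun x => by rw [grad_comp hg contDiff_chi2, deriv_chi2, grad_sub ha hb]
  have ca := continuous_grad ha
  have cb := continuous_grad hb
  have cg : Continuous fun x => grad a x - grad b x := ca.sub cb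
  have e1 := c.N_sq_sub hD hφ ha hb
  have e2 := hI.energy c D hD (fun x => a x - b x) (fun x => a x + b x) chi hg (ha.add hb)
    contDiff_chi fun x hx => chi_of_nonpos (h0 x hx)
  have e3 := ht _ a hH ha fun x hx => chi2_of_nonpos (h0 x hx)
  have e4 := hd _ a hH ha fun x hx => chi2_of_nonpos (h0 x hx)
  simp only [grad_sub ha hb, grad_add ha hb, c.T_add ha hb] at e2
  simp only [gH, c.n_smul_left, dotProduct_smul, smul_eq_mul] at e3 e4
  have c1 := c.continuous_NI hφ ha ha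
  have c2 := c.continuous_NI hφ hu hu
  have c3 : Continuous fun x => deriv chi (a x - b x) *
      c.w (c.s x (grad a x - grad b x) (grad a x - grad b x)) (c.T a x + c.T b x) :=
    hφ'.mul (c.continuous_w (c.continuous_s cg cg) ((c.continuous_T ha).add (c.continuous_T hb)))
  have c4 : Continuous fun x =>
      chi (a x - b x) * c.n x (grad a x - grad b x) (grad a x - grad b x) :=
    hφ.mul (c.continuous_n cg cg)
  have c4' : Continuous fun x => chi (a x - b x) * c.n x (grad a x - grad b x) (grad a x) :=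
    hφ.mul (c.continuous_n cg ca)
  have c5 : Continuous fun x => chi2 (a x - b x) * pf (c.T a x) (τ x) :=
    hH.continuous.mul (continuous_pf (c.continuous_T ha) hτ)
  have c6 : Continuous fun x => a x * (chi (a x - b x) * (X x ⬝ᵥ (grad a x - grad b x))) :=
    ha.continuous.mul (hφ.mul (continuous_dot hX cg))
  have c7 : Continuous fun x => a x * chi2 (a x - b x) * Y x :=
    (ha.continuous.mul hH.continuous).mul hY
  have e5 : ∫ x in D, chi (a x - b x) * c.n x (grad a x - grad b x) (grad a x + grad b x) =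
      2 * (∫ x in D, chi (a x - b x) * c.n x (grad a x - grad b x) (grad a x)) -
        ∫ x in D, chi (a x - b x) * c.n x (grad a x - grad b x) (grad a x - grad b x) := by
    rw [← integral_const_mul, ← int_sub hD (continuous_const.fun_mul c4') c4]
    refine int_congr hD fun x _ => ?_
    rw [c.n_add_right, c.n_sub_right]
    ring
  rw [int_sub hD (((((c1.fun_sub c2).fun_add c3).fun_sub c4).fun_add (continuous_const.fun_mul c5)).fun_sub
      (continuous_const.fun_mul c6)) (continuous_const.fun_mul c7),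
    int_sub hD ((((c1.fun_sub c2).fun_add c3).fun_sub c4).fun_add (continuous_const.fun_mul c5))
      (continuous_const.fun_mul c6),
    int_add hD (((c1.fun_sub c2).fun_add c3).fun_sub c4) (continuous_const.fun_mul c5),
    int_sub hD ((c1.fun_sub c2).fun_add c3) c4, int_add hD (c1.fun_sub c2) c3, int_sub hD c1 c2,
    integral_const_mul, integral_const_mul, integral_const_mul]
  have n1 : c.N D (fun x => chi (a x - b x)) a a =
    ∫ x in D, chi (a x - b x) * c.w (c.T a x) (c.T a x) := rfl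
  have n2 : c.N D (fun x => chi (a x - b x)) u u =
    ∫ x in D, chi (a x - b x) * c.w (c.T u x) (c.T u x) := rfl
  linarith

theorem abs_ (hA : SLinA) (hB : SLinB) (_hP : SPt) (hI : SIntA) (hJ : SIntB) : SAbs := by
  intro c p R r K c₀ w hr hrR hc₀ hw hW
  have hD : IsCompact (closedBall p R) := isCompact_closedBall p R
  obtain ⟨τ, X, hτ, hX, ht⟩ := hJ.tors c
  obtain ⟨Y, hY, hd⟩ := hJ.div X hX
  obtain ⟨a₀, ha₀, k₀⟩ := c.omom_bd hD
  obtain ⟨a₁, ha₁, k₁⟩ := c.coer hB hD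
  obtain ⟨C₁, hC₁, l₁⟩ := exists_bound hD (c.continuous_w c.continuous_Om (c.continuous_T hw))
  obtain ⟨C₂, hC₂, l₂⟩ := c.ws_bd hD c.continuous_Om
  obtain ⟨C₃, hC₃, l₃⟩ := c.n_bd hD
  obtain ⟨C₄, hC₄, l₄⟩ := c.pos_pf_bd hB hD hτ
  obtain ⟨C₅, hC₅, l₅⟩ := exists_bound hD (continuous_pf c.continuous_Om hτ)
  obtain ⟨C₆, hC₆, l₆⟩ := exists_bound hD (continuous_pf (c.continuous_T hw) hτ)
  obtain ⟨C₇, hC₇, l₇⟩ := exists_bound hD hX.continuous
  obtain ⟨C₈, hC₈, l₈⟩ := exists_bound hD hY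
  obtain ⟨t, δ, ht0, hδ, hδ1, e1, e2, e3⟩ := choose_small hc₀ ha₀ ha₁ hC₃ hC₄
    (show 0 ≤ |K| * C₅ + C₆ by positivity) (show 0 ≤ |K| * (4 * C₇) by positivity)
    (show 0 ≤ |K| * C₈ by positivity)
  refine ⟨δ, c₀ ^ 2 * a₀ / 2, 2 * C₁ + C₂, hδ, by positivity, by positivity,
    fun u a b η₁ η₂ hu ha hb hη₁ hη₂ hauw hpt hout hδg => ?_⟩
  have h0 : ∀ x, x ∉ closedBall p R → a x - b x ≤ 0 := fun x hx =>
    hout x fun h => hx (ball_subset_closedBall (ball_subset_ball hrR.le h))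
  rw [ident hI c hD hτ hX.continuous hY (ht _ hD) (hd _ hD) hu ha hb h0]
  have hg : ContDiff ℝ ∞ fun x => a x - b x := ha.sub hb
  have hH : Continuous fun x => chi2 (a x - b x) := (contDiff_chi2.comp hg).continuous
  have hφ : Continuous fun x => chi (a x - b x) := continuous_chi.comp hg.continuous
  have hφ' : Continuous fun x => deriv chi (a x - b x) :=
    (contDiff_chi.continuous_deriv (by simp)).comp hg.continuous
  have cg : Continuous fun x => grad a x - grad b x := (continuous_grad ha).sub (continuous_grad hb)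
  have cA := ((((((c.continuous_NI hφ ha ha).fun_sub (c.continuous_NI hφ hu hu)).fun_add
    (hφ'.fun_mul (c.continuous_w (c.continuous_s cg cg)
      ((c.continuous_T ha).fun_add (c.continuous_T hb))))).fun_sub (hφ.fun_mul (c.continuous_n cg cg))).fun_add
    ((continuous_const (y := (2 : ℝ))).fun_mul (hH.fun_mul (continuous_pf (c.continuous_T ha) hτ)))).fun_sub
    ((continuous_const (y := (2 : ℝ))).fun_mul
      (ha.continuous.fun_mul (hφ.fun_mul (continuous_dot hX.continuous cg))))).fun_sub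
    ((continuous_const (y := (2 : ℝ))).fun_mul ((ha.continuous.fun_mul hH).fun_mul hY))
  have cη : Continuous fun x => (2 * C₁ + C₂) * η₁ x := continuous_const.mul hη₁
  have cη' : Continuous fun x => (2 * C₁ + C₂) * ((η₁ x + η₂ x) * ‖grad a x - grad b x‖ ^ 2) :=
    continuous_const.mul ((hη₁.add hη₂).mul (cg.norm.pow 2))
  rw [← integral_const_mul, ← integral_const_mul, ← integral_const_mul, ← int_add hD cA cη,
    ← int_add hD (cA.fun_add cη) cη']
  refine int_mono hD (continuous_const.fun_mul hφ) ((cA.fun_add cη).fun_add cη') fun x hx => ?_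
  obtain ⟨hK, h1, h1K, h2, hU, hBp⟩ := hpt x hx
  have hK' : |a x| ≤ |K| := hK.trans (le_abs_self K)
  have h1K' : η₁ x ≤ |K| := h1K.trans (le_abs_self K)
  by_cases hxg : a x - b x ≤ 0
  · simp only [chi_of_nonpos hxg, chi2_of_nonpos hxg, deriv_chi_of_nonpos hxg]
    have : 0 ≤ (2 * C₁ + C₂) * η₁ x +
        (2 * C₁ + C₂) * ((η₁ x + η₂ x) * ‖grad a x - grad b x‖ ^ 2) := by positivity
    linarith
  have hxr : x ∈ ball p R := ball_subset_ball hrR.le (by_contra fun h => hxg (hout x h))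
  have hTa : c.T a x = c.T u x + c.T w x := by
    rw [← c.T_add hu hw]
    exact c.T_congr (Filter.eventually_of_mem (isOpen_ball.mem_nhds hxr) hauw)
  have hφ0 := chi_nonneg (a x - b x)
  have hφd := chi_le_delta hδ.le (hδg x)
  have hφ1 : chi (a x - b x) ≤ 1 := (chi_le_self hδ.le (hδg x)).trans hδ1
  have hd0 := deriv_chi_nonneg (a x - b x)
  have hd1 := deriv_chi_le_one (a x - b x)
  have hH0 := chi2_nonneg (a x - b x)
  have hHd := chi2_le_delta hδ.le (hδg x)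
  have hO := c.Om_pos x
  have hWx := hW x hx
  generalize chi (a x - b x) = φ at *
  generalize deriv chi (a x - b x) = φ' at *
  generalize chi2 (a x - b x) = H at *
  generalize grad a x - grad b x = q
  obtain ⟨U, hUe⟩ : ∃ U, U = c.T u x + η₁ x • c.Om x := ⟨_, rfl⟩
  obtain ⟨W, hWe⟩ : ∃ W, W = c.T w x - c₀ • c.Om x := ⟨_, rfl⟩
  obtain ⟨B, hBe⟩ : ∃ B, B = c.T b x + η₂ x • c.Om x := ⟨_, rfl⟩
  rw [← hUe] at hU
  rw [← hWe] at hWx
  rw [← hBe] at hBp
  have tu : c.T u x = U - η₁ x • c.Om x := by rw [hUe]; abel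
  have tw : c.T w x = W + c₀ • c.Om x := by rw [hWe]; abel
  have tb : c.T b x = B - η₂ x • c.Om x := by rw [hBe]; abel
  have hUO := c.w_pos hA hU hO
  have hq := norm_nonneg q
  refine comb (a₁ := a₁) (C₁ := C₁) (C₂ := C₂) (U := c.w U (c.Om x)) hφ0 hd0 hUO h1 h2
    ?_ ?_ ?_ ?_ ?_ ?_ e1 e2 e3 (by linarith) (by linarith)
  · have m1 : c.w (c.T u x) (c.T w x) =
        c.w U W + c₀ * c.w U (c.Om x) - η₁ x * c.w (c.Om x) (c.T w x) := by
      rw [tu, c.w_sub_left, c.w_smul_left, tw, c.w_add_right U, c.w_smul_right]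
    have m2 : c.w (c.T w x) (c.T w x) =
        c.w W W + 2 * c₀ * c.w W (c.Om x) + c₀ ^ 2 * c.w (c.Om x) (c.Om x) := by
      rw [tw]
      simp only [c.w_add_left, c.w_add_right, c.w_smul_left, c.w_smul_right, c.w_comm (c.Om x) W]
      ring
    have m3 : c.w (c.T a x) (c.T a x) = c.w (c.T u x) (c.T u x) + 2 * c.w (c.T u x) (c.T w x) +
        c.w (c.T w x) (c.T w x) := by
      rw [hTa]
      simp only [c.w_add_left, c.w_add_right, c.w_comm (c.T w x) (c.T u x)]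
      ring
    have m4 : c.w (c.Om x) (c.T w x) ≤ C₁ := (le_abs_self _).trans (l₁ x hx)
    have m5 : φ * (η₁ x * c.w (c.Om x) (c.T w x)) ≤ C₁ * η₁ x := by
      have := mul_le_mul_of_nonneg_left m4 (mul_nonneg hφ0 h1)
      have := mul_le_mul_of_nonneg_right hφ1 (mul_nonneg hC₁ h1)
      nlinarith
    have m6 := mul_nonneg hφ0 (c.w_pos hA hU hWx)
    have m7 := mul_nonneg hφ0 (c.w_pos hA hWx hWx)
    have m8 := mul_nonneg hc₀.le (mul_nonneg hφ0 (c.w_pos hA hWx hO))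
    have m9 := mul_le_mul_of_nonneg_left (k₀ x hx) (mul_nonneg (sq_nonneg c₀) hφ0)
    rw [m3, m1, m2]
    nlinarith
  · have hs := c.s_pos x q
    have m1 : c.w (c.s x q q) (c.T a x + c.T b x) = c.w (c.s x q q) U + c.w (c.s x q q) W +
        c.w (c.s x q q) B + c₀ * c.w (c.s x q q) (c.Om x) -
          (η₁ x + η₂ x) * c.w (c.s x q q) (c.Om x) := by
      rw [hTa, tu, tw, tb]
      simp only [c.w_add_right, c.w_sub_right, c.w_smul_right]
      ring
    have m2 : c.w (c.s x q q) (c.Om x) ≤ C₂ * ‖q‖ ^ 2 := by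
      rw [sq]; exact (le_abs_self _).trans (l₂ x hx q q)
    have m3 := mul_nonneg hd0 (c.w_pos hA hs hU)
    have m4 := mul_nonneg hd0 (c.w_pos hA hs hWx)
    have m5 := mul_nonneg hd0 (c.w_pos hA hs hBp)
    have m6 := mul_le_mul_of_nonneg_left (k₁ x hx q) (mul_nonneg hc₀.le hd0)
    have m7 := mul_le_mul_of_nonneg_left m2 (mul_nonneg hd0 (add_nonneg h1 h2))
    have m8 := mul_le_mul_of_nonneg_right hd1
      (mul_nonneg (add_nonneg h1 h2) (mul_nonneg hC₂ (sq_nonneg ‖q‖)))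
    rw [m1]
    nlinarith
  · have m1 : c.n x q q ≤ C₃ * ‖q‖ ^ 2 := by
      rw [sq]; exact (le_abs_self _).trans (l₃ x hx q q)
    have m2 := mul_le_mul_of_nonneg_left m1 hφ0
    have m3 := mul_le_mul_of_nonneg_right hφd (mul_nonneg hC₃ (sq_nonneg ‖q‖))
    nlinarith
  · have m1 : pf (c.T a x) (τ x) = pf U (τ x) - η₁ x * pf (c.Om x) (τ x) + pf (c.T w x) (τ x) := by
      rw [hTa, tu, pf_add_left, pf_sub_left, pf_smul_left]
    have m2 := (abs_le.1 (l₄ x hx U hU)).1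
    have m3 : pf (c.Om x) (τ x) ≤ C₅ := (le_abs_self _).trans (l₅ x hx)
    have m4 := (abs_le.1 (show |pf (c.T w x) (τ x)| ≤ C₆ from l₆ x hx)).1
    have m5 := mul_le_mul_of_nonneg_left m3 h1
    have m6 := mul_le_mul_of_nonneg_right h1K' hC₅
    have m7 : -(C₄ * c.w U (c.Om x) + (|K| * C₅ + C₆)) ≤ pf (c.T a x) (τ x) := by linarith
    have m8 := mul_le_mul_of_nonneg_left m7 hH0
    have m9 := mul_le_mul_of_nonneg_right hHd
      (show 0 ≤ C₄ * c.w U (c.Om x) + (|K| * C₅ + C₆) by positivity)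
    nlinarith
  · have m1 : |X x ⬝ᵥ q| ≤ 4 * C₇ * ‖q‖ := by
      have := mul_le_mul_of_nonneg_right (l₇ x hx) hq
      linarith [abs_dot_le (X x) q]
    have m2 : a x * (X x ⬝ᵥ q) ≤ |K| * (4 * C₇) * ‖q‖ := by
      refine (le_abs_self _).trans ?_
      rw [abs_mul, mul_assoc]
      exact mul_le_mul hK' m1 (abs_nonneg _) (abs_nonneg _)
    have m3 : ‖q‖ ≤ t / 2 + 1 / (2 * t) * ‖q‖ ^ 2 := by
      have : t / 2 + 1 / (2 * t) * ‖q‖ ^ 2 - ‖q‖ = (t - ‖q‖) ^ 2 / (2 * t) := by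
        field_simp; ring
      have h' : 0 ≤ (t - ‖q‖) ^ 2 / (2 * t) := by positivity
      linarith
    have hQ : 0 ≤ |K| * (4 * C₇) := by positivity
    generalize |K| * (4 * C₇) = Q at *
    calc a x * (φ * (X x ⬝ᵥ q)) = φ * (a x * (X x ⬝ᵥ q)) := by ring
      _ ≤ φ * (Q * (t / 2 + 1 / (2 * t) * ‖q‖ ^ 2)) :=
          mul_le_mul_of_nonneg_left (m2.trans (mul_le_mul_of_nonneg_left m3 hQ)) hφ0
      _ = Q * t / 2 * φ + Q / (2 * t) * ‖q‖ ^ 2 * φ := by ring
      _ ≤ Q * t / 2 * φ + Q / (2 * t) * ‖q‖ ^ 2 * (δ * φ') := by gcongr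
      _ = _ := by ring
  · have m1 : a x * Y x ≤ |K| * C₈ := by
      refine (le_abs_self _).trans ?_
      rw [abs_mul]
      exact mul_le_mul hK' (l₈ x hx) (abs_nonneg _) (abs_nonneg _)
    have m2 := mul_le_mul_of_nonneg_left m1 hH0
    have m3 := mul_le_mul_of_nonneg_right hHd (show 0 ≤ |K| * C₈ by positivity)
    nlinarith

end Pool.Agent.MP_13e7a1_an.H50
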